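import Pool.Agent.helper97.BG.SigDefs

/-!
# BR : the bracket (module for MP_c563ae_ag, plan and statements by helper97)
-/

namespace Pool.Agent.helper97.BG

open Module TensorProduct

namespace BR

variable {k K : Type*} [Field k] [Field K] [Algebra k K]

theorem two_eq (k : Type*) {K : Type*} [Field k] [Field K] [Algebra k K] [CharP k 2] :
    (2 : K) = 0 := by
  have h : (2 : k) = 0 := by exact_mod_cast CharP.cast_eq_zero k 2
  rw [← map_ofNat (algebraMap k K) 2, h, map_zero]

theorem aeval_ne (d : PD k K) {p : MvPolynomial (Fin 2) k} (x : Fin 2 → k)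
    (hp : MvPolynomial.eval x p ≠ 0) : MvPolynomial.aeval ![d.V 0, d.V 1] p ≠ 0 := by
  intro h
  have h0 : p = 0 := d.ind (by rw [h, map_zero])
  rw [h0, map_zero] at hp
  exact hp rfl

theorem V0_ne (d : PD k K) : d.V 0 ≠ 0 := by
  have := aeval_ne d (p := MvPolynomial.X 0) (fun _ => 1) (by simp)
  simpa using this

theorem V1_ne (d : PD k K) : d.V 1 ≠ 0 := by
  have := aeval_ne d (p := MvPolynomial.X 1) (fun _ => 1) (by simp)
  simpa using this

theorem V3_ne (d : PD k K) : d.V 3 ≠ 0 := by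
  intro h
  have h3 : d.V 3 ^ 5 + d.V 0 ^ 5 * d.V 1 ^ 5 = 1 := d.rel 3
  have := aeval_ne d (p := MvPolynomial.X 0 ^ 5 * MvPolynomial.X 1 ^ 5 - 1) (fun _ => 0)
    (by simp)
  apply this
  simp only [map_sub, map_mul, map_pow, MvPolynomial.aeval_X, Matrix.cons_val_zero,
    Matrix.cons_val_one, Matrix.cons_val_fin_one, map_one]
  rw [← h3, h]
  ring

theorem V2_ne (d : PD k K) : d.V 2 ≠ 0 := by
  intro h
  have h3 : d.V 0 ^ 5 + d.V 2 ^ 5 * d.V 3 ^ 5 = 1 := d.rel 0
  have := aeval_ne d (p := MvPolynomial.X 0 ^ 5 - 1) (fun _ => 0) (by simp)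
  apply this
  simp only [map_sub, map_pow, MvPolynomial.aeval_X, Matrix.cons_val_zero, map_one]
  rw [← h3, h]
  ring

theorem V4_ne (d : PD k K) : d.V 4 ≠ 0 := by
  intro h
  have h3 : d.V 1 ^ 5 + d.V 3 ^ 5 * d.V 4 ^ 5 = 1 := d.rel 1
  have := aeval_ne d (p := MvPolynomial.X 1 ^ 5 - 1) (fun _ => 0) (by simp)
  apply this
  simp only [map_sub, map_pow, MvPolynomial.aeval_X, Matrix.cons_val_one, Matrix.cons_val_fin_one,
    map_one]
  rw [← h3, h]
  ring

theorem V_ne (d : PD k K) (i : Fin 5) : d.V i ≠ 0 := by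
  fin_cases i
  · exact V0_ne d
  · exact V1_ne d
  · exact V2_ne d
  · exact V3_ne d
  · exact V4_ne d

/-! ### derivations in characteristic two -/

theorem der5 (h2 : (2 : K) = 0) (D : Derivation k K K) (x : K) : D (x ^ 5) = x ^ 4 * D x := by
  rw [Derivation.leibniz_pow]
  simp only [smul_eq_mul, nsmul_eq_mul]
  push_cast
  linear_combination (2 * x ^ 4 * D x) * h2

theorem der_rel (h2 : (2 : K) = 0) (D : Derivation k K K) {x y z : K}
    (h : x ^ 5 + y ^ 5 * z ^ 5 = 1) :
    x ^ 4 * D x = y ^ 4 * z ^ 4 * (z * D y + y * D z) := by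
  have := congrArg D h
  rw [map_add, Derivation.leibniz, der5 h2, der5 h2, der5 h2, Derivation.map_one_eq_zero] at this
  simp only [smul_eq_mul] at this
  linear_combination this - (y ^ 4 * z ^ 4 * (z * D y + y * D z)) * h2

theorem der_y (h2 : (2 : K) = 0) (d : PD k K) (D : Derivation k K K) :
    d.y ^ 4 * D d.y = ∑ i, algebraMap k K (d.c i) * d.V i ^ 4 * D (d.V i) := by
  have := congrArg D d.yrel
  rw [der5 h2, map_sum] at this
  rw [this]
  refine Finset.sum_congr rfl fun i _ => ?_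
  rw [Derivation.leibniz, Derivation.map_algebraMap, der5 h2]
  simp only [smul_eq_mul, mul_zero, add_zero]
  ring

/-- The kernel of a derivation is a field. -/
theorem der_zero_of_adjoin {S : Set K} (hS : IntermediateField.adjoin k S = ⊤)
    (D : Derivation k K K) (h : ∀ x ∈ S, D x = 0) : D = 0 := by
  ext x
  have hx : x ∈ IntermediateField.adjoin k S := by rw [hS]; trivial
  simp only [Derivation.coe_zero, Pi.zero_apply]
  induction hx using IntermediateField.adjoin_induction with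
  | mem x hx => exact h x hx
  | algebraMap x => exact D.map_algebraMap x
  | add x y _ _ hx hy => rw [map_add, hx, hy, add_zero]
  | inv x _ hx => rw [Derivation.leibniz_inv, hx, smul_zero]
  | mul x y _ _ hx hy => rw [Derivation.leibniz, hx, hy, smul_zero, smul_zero, add_zero]

/-- A derivation is determined by its values on `V 0` and `V 1`. -/
theorem der_zero (h2 : (2 : K) = 0) (d : PD k K) (D : Derivation k K K) (h0 : D (d.V 0) = 0)
    (h1 : D (d.V 1) = 0) : D = 0 := by
  have r3 : d.V 3 ^ 5 + d.V 0 ^ 5 * d.V 1 ^ 5 = 1 := d.rel 3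
  have r0 : d.V 0 ^ 5 + d.V 2 ^ 5 * d.V 3 ^ 5 = 1 := d.rel 0
  have r1 : d.V 1 ^ 5 + d.V 3 ^ 5 * d.V 4 ^ 5 = 1 := d.rel 1
  have h3 : D (d.V 3) = 0 := by
    have := der_rel h2 D r3
    rw [h0, h1, mul_zero, mul_zero, add_zero, mul_zero] at this
    exact (mul_eq_zero.1 this).resolve_left (pow_ne_zero _ (V_ne d 3))
  have h2' : D (d.V 2) = 0 := by
    have := der_rel h2 D r0
    rw [h0, h3, mul_zero, mul_zero, add_zero] at this
    have h := (mul_eq_zero.1 this.symm).resolve_left
      (mul_ne_zero (pow_ne_zero _ (V_ne d 2)) (pow_ne_zero _ (V_ne d 3)))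
    exact (mul_eq_zero.1 h).resolve_left (V_ne d 3)
  have h4 : D (d.V 4) = 0 := by
    have := der_rel h2 D r1
    rw [h1, h3, mul_zero, mul_zero, zero_add] at this
    have h := (mul_eq_zero.1 this.symm).resolve_left
      (mul_ne_zero (pow_ne_zero _ (V_ne d 3)) (pow_ne_zero _ (V_ne d 4)))
    exact (mul_eq_zero.1 h).resolve_left (V_ne d 3)
  have hV : ∀ i, D (d.V i) = 0 := by
    intro i
    fin_cases i
    · exact h0
    · exact h1
    · exact h2'
    · exact h3
    · exact h4
  have hy : D d.y = 0 := by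
    have := der_y h2 d D
    rw [Finset.sum_eq_zero (fun i _ => by rw [hV i, mul_zero])] at this
    rcases mul_eq_zero.1 this with h | h
    · rw [pow_eq_zero_iff (by norm_num)] at h
      rw [h, map_zero]
    · exact h
  refine der_zero_of_adjoin d.gen D ?_
  rintro x (rfl | ⟨i, rfl⟩)
  · exact hy
  · exact hV i

/-! ### biderivations -/

theorem antisymm {B : Derivation k K (Derivation k K K)} (hB : ∀ f, B f f = 0) (f g : K) :
    B f g + B g f = 0 := by
  have h := hB (f + g)
  simp only [map_add, Derivation.add_apply, hB] at h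
  linear_combination h

theorem symm2 (h2 : (2 : K) = 0) {B : Derivation k K (Derivation k K K)}
    (hB : ∀ f, B f f = 0) (f g : K) : B f g = B g f := by
  linear_combination antisymm hB f g - B g f * h2

theorem bider_zero (h2 : (2 : K) = 0) (d : PD k K) {C : Derivation k K (Derivation k K K)}
    (hC : ∀ f, C f f = 0) (h : C (d.V 0) (d.V 1) = 0) : C = 0 := by
  have h0 : C (d.V 0) = 0 := der_zero h2 d _ (hC _) h
  have h1 : C (d.V 1) = 0 := der_zero h2 d _ (by rw [symm2 h2 hC, h]) (hC _)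
  ext f g
  have hf : C f = 0 := der_zero h2 d _ (by rw [symm2 h2 hC, h0]; rfl)
    (by rw [symm2 h2 hC, h1]; rfl)
  rw [hf]
  rfl

/-- One step around the pentagon. -/
theorem step (h2 : (2 : K) = 0) {a : Fin 5 → K} (ha : ∀ i, a i ≠ 0)
    (rel : ∀ i, a i ^ 5 + a (i + 2) ^ 5 * a (i + 3) ^ 5 = 1)
    {B : Derivation k K (Derivation k K K)} (hB : ∀ f, B f f = 0)
    (h : B (a 0) (a 1) = a 3 ^ 9 * a 2 ^ 4 * a 4 ^ 4) :
    B (a 1) (a 2) = a 4 ^ 9 * a 3 ^ 4 * a 0 ^ 4 ∧
      B (a 0) (a 2) = a 0 * a 2 * (a 0 ^ 4 * a 1 ^ 4 * a 2 ^ 4 * a 3 ^ 4 * a 4 ^ 4) := by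
  have r3 : a 3 ^ 5 + a 0 ^ 5 * a 1 ^ 5 = 1 := rel 3
  have r0 : a 0 ^ 5 + a 2 ^ 5 * a 3 ^ 5 = 1 := rel 0
  have r4 : a 4 ^ 5 + a 1 ^ 5 * a 2 ^ 5 = 1 := rel 4
  have e03 : B (a 0) (a 3) = a 0 * a 3 * (a 0 ^ 4 * a 1 ^ 4 * a 2 ^ 4 * a 3 ^ 4 * a 4 ^ 4) := by
    have := der_rel h2 (B (a 0)) r3
    rw [hB, h] at this
    refine mul_left_cancel₀ (pow_ne_zero 4 (ha 3)) ?_
    linear_combination this
  have e13 : B (a 1) (a 3) = a 1 * a 3 * (a 0 ^ 4 * a 1 ^ 4 * a 2 ^ 4 * a 3 ^ 4 * a 4 ^ 4) := by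
    have := der_rel h2 (B (a 1)) r3
    rw [hB, symm2 h2 hB (a 1) (a 0), h] at this
    refine mul_left_cancel₀ (pow_ne_zero 4 (ha 3)) ?_
    linear_combination this
  constructor
  · have := der_rel h2 (B (a 1)) r0
    rw [symm2 h2 hB (a 1) (a 0), h, e13] at this
    refine mul_left_cancel₀ (pow_ne_zero 5 (ha 3)) (mul_left_cancel₀ (pow_ne_zero 4 (ha 2)) ?_)
    linear_combination -this - (a 0 ^ 4 * a 3 ^ 9 * a 2 ^ 4 * a 4 ^ 4) * r4
  · have := der_rel h2 (B (a 0)) r0
    rw [hB, e03, mul_zero] at this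
    have h' := (mul_eq_zero.1 this.symm).resolve_left
      (mul_ne_zero (pow_ne_zero _ (ha 2)) (pow_ne_zero _ (ha 3)))
    refine mul_left_cancel₀ (ha 3) ?_
    linear_combination h' - (a 2 * (a 0 * a 3 *
      (a 0 ^ 4 * a 1 ^ 4 * a 2 ^ 4 * a 3 ^ 4 * a 4 ^ 4))) * h2

theorem rel_shift (d : PD k K) (n : Fin 5) (i : Fin 5) :
    d.V (i + n) ^ 5 + d.V (i + 2 + n) ^ 5 * d.V (i + 3 + n) ^ 5 = 1 := by
  have h := d.rel (i + n)
  have e : ∀ i n : Fin 5, i + n + 2 = i + 2 + n ∧ i + n + 3 = i + 3 + n := by decide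
  rw [(e i n).1, (e i n).2] at h
  exact h

theorem adj_step (h2 : (2 : K) = 0) {d : PD k K} {B : Derivation k K (Derivation k K K)}
    (hB : IsBr d B) (n : Fin 5)
    (ih : B (d.V (0 + n)) (d.V (1 + n)) = d.V (3 + n) ^ 9 * d.V (2 + n) ^ 4 * d.V (4 + n) ^ 4) :
    B (d.V (0 + (n + 1))) (d.V (1 + (n + 1))) =
      d.V (3 + (n + 1)) ^ 9 * d.V (2 + (n + 1)) ^ 4 * d.V (4 + (n + 1)) ^ 4 := by
  have h := (step h2 (a := fun j => d.V (j + n)) (fun i => V_ne d _)
    (fun i => rel_shift d n i) hB.alt ih).1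
  have e : ∀ n : Fin 5, 0 + (n + 1) = 1 + n ∧ 1 + (n + 1) = 2 + n ∧ 2 + (n + 1) = 3 + n ∧
    3 + (n + 1) = 4 + n ∧ 4 + (n + 1) = 0 + n := by decide
  obtain ⟨e0, e1, e2, e3, e4⟩ := e n
  rw [e0, e1, e2, e3, e4]
  exact h

theorem adj' (h2 : (2 : K) = 0) {d : PD k K} {B : Derivation k K (Derivation k K K)}
    (hB : IsBr d B) (i : Fin 5) :
    B (d.V (0 + i)) (d.V (1 + i)) = d.V (3 + i) ^ 9 * d.V (2 + i) ^ 4 * d.V (4 + i) ^ 4 := by
  have h0 : B (d.V (0 + 0)) (d.V (1 + 0)) =
      d.V (3 + 0) ^ 9 * d.V (2 + 0) ^ 4 * d.V (4 + 0) ^ 4 := hB.norm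
  have h1 := adj_step h2 hB 0 h0
  have h2' := adj_step h2 hB 1 h1
  have h3 := adj_step h2 hB 2 h2'
  have h4 := adj_step h2 hB 3 h3
  fin_cases i
  · exact h0
  · exact h1
  · exact h2'
  · exact h3
  · exact h4

end BR

variable {k K : Type*} [Field k] [Field K] [Algebra k K]

theorem IsBr.adj [CharP k 2] {d : PD k K} {B : Derivation k K (Derivation k K K)}
    (hB : IsBr d B) (i : Fin 5) :
    B (d.V i) (d.V (i + 1)) = d.V (i + 3) ^ 9 * d.V (i + 2) ^ 4 * d.V (i + 4) ^ 4 := by
  have h := BR.adj' (BR.two_eq k) hB i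
  rwa [zero_add, add_comm 1 i, add_comm 2 i, add_comm 3 i, add_comm 4 i] at h

theorem IsBr.two [CharP k 2] {d : PD k K} {B : Derivation k K (Derivation k K K)}
    (hB : IsBr d B) (i : Fin 5) :
    B (d.V i) (d.V (i + 2)) = d.V i * d.V (i + 2) * ∏ j, d.V j ^ 4 := by
  have h := (BR.step (BR.two_eq k) (a := fun j => d.V (j + i)) (fun i => BR.V_ne d _)
      (fun j => BR.rel_shift d i j) hB.alt (BR.adj' (BR.two_eq k) hB i)).2
  rw [zero_add, add_comm 2 i] at h
  rw [h, ← Equiv.prod_comp (Equiv.addRight i) (fun j => d.V j ^ 4)]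
  simp only [Fin.prod_univ_five, Equiv.coe_addRight, zero_add, add_comm 2 i]

theorem IsBr.y [CharP k 2] {d : PD k K} {B : Derivation k K (Derivation k K K)}
    (hB : IsBr d B) (f : K) :
    d.y ^ 4 * B f d.y = ∑ i, algebraMap k K (d.c i) * d.V i ^ 4 * B f (d.V i) :=
  BR.der_y (BR.two_eq k) d (B f)

theorem IsBr.sig [CharP k 2] {d d' : PD k K} {i : Fin 5} (h : IsSig d d' i)
    {B B' : Derivation k K (Derivation k K K)} (hB : IsBr d B) (hB' : IsBr d' B') (f g : K) :
    B f g = d.w i ^ 3 * B' f g := by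
  have h2 : (2 : K) = 0 := BR.two_eq k
  have key : B - (d.w i ^ 3) • B' = 0 := by
    refine BR.bider_zero h2 d' ?_ ?_
    · intro f
      simp only [Derivation.sub_apply, Derivation.smul_apply, hB.alt, hB'.alt, smul_zero,
        sub_zero]
    · have ha := hB.adj i
      simp only [Derivation.sub_apply, Derivation.smul_apply, hB'.norm, smul_eq_mul]
      rw [h.V2, h.V3, h.V4, h.V0, h.V1, Derivation.leibniz_inv, Derivation.leibniz_inv]
      simp only [Derivation.smul_apply, smul_eq_mul]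
      rw [BR.symm2 h2 hB.alt, ha, PD.w]
      have h0 := BR.V_ne d i
      have h1 := BR.V_ne d (i + 1)
      field_simp
      ring
  have := congrArg (fun C : Derivation k K (Derivation k K K) => C f g) key
  simp only [Derivation.sub_apply, Derivation.smul_apply, smul_eq_mul,
    Derivation.zero_apply] at this
  exact sub_eq_zero.1 this

namespace BR

/-- Extension of derivations along a formally étale map. -/
theorem exists_der_ext {A : Type*} [CommRing A] [Algebra k A] [Algebra A K]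
    [IsScalarTower k A K] [Algebra.FormallyEtale A K] (g : Derivation k A K) :
    ∃ D : Derivation k K K, ∀ a : A, D (algebraMap A K a) = g a := by
  let e := KaehlerDifferential.tensorKaehlerEquivOfFormallyEtale k A K
  let L : K ⊗[A] (Ω[A⁄k]) →ₗ[K] K := LinearMap.liftBaseChange K g.liftKaehlerDifferential
  refine ⟨(L ∘ₗ e.symm.toLinearMap).compDer (KaehlerDifferential.D k K), fun a => ?_⟩
  have h := KaehlerDifferential.tensorKaehlerEquivOfFormallyEtale_symm_D_algebraMap k A K a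
  change L (e.symm (KaehlerDifferential.D k K (algebraMap A K a))) = g a
  rw [h]
  simp [L]

theorem isSep_of_pow {F : Type*} [Field F] [Algebra F K] (h5 : (5 : F) ≠ 0) {x : K}
    (hx : x ^ 5 ∈ (algebraMap F K).range) : IsSeparable F x := by
  obtain ⟨a, ha⟩ := hx
  by_cases h0 : a = 0
  · rw [h0, map_zero] at ha
    have : x = 0 := by
      rw [eq_comm, pow_eq_zero_iff (by norm_num)] at ha
      exact ha
    rw [this]
    simpa using isSeparable_algebraMap (F := F) (K := K) 0
  · have hs : (Polynomial.X ^ 5 - Polynomial.C a : Polynomial F).Separable :=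
      Polynomial.separable_X_pow_sub_C a (by exact_mod_cast h5) h0
    refine hs.of_dvd (minpoly.dvd F x ?_)
    simp [ha]

theorem isSep_of_gen {F : Type*} [Field F] [Algebra k F] [Algebra F K] [IsScalarTower k F K]
    (h5 : (5 : F) ≠ 0) {S : Set K} (hS : IntermediateField.adjoin k S = ⊤)
    (h : ∀ x ∈ S, x ^ 5 ∈ (algebraMap F K).range) : Algebra.IsSeparable F K := by
  have h1 : IntermediateField.adjoin F S = ⊤ := by
    rw [eq_top_iff]
    intro x _
    have hx : x ∈ IntermediateField.adjoin k S := by rw [hS]; trivial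
    have : IntermediateField.adjoin k S ≤
        (IntermediateField.adjoin F S).restrictScalars k := by
      rw [IntermediateField.adjoin_le_iff]
      exact IntermediateField.subset_adjoin F S
    exact this hx
  have h2 : Algebra.IsSeparable F (IntermediateField.adjoin F S) :=
    (IntermediateField.isSeparable_adjoin_iff_isSeparable F K).2
      fun x hx => isSep_of_pow h5 (h x hx)
  rw [h1] at h2
  exact Algebra.IsSeparable.of_algHom F _ (IntermediateField.topEquiv (F := F) (E := K)).symm.toAlgHom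

theorem exists_partial (d : PD k K) (h5 : (5 : k) ≠ 0) (g : Fin 2 → K) :
    ∃ D : Derivation k K K, D (d.V 0) = g 0 ∧ D (d.V 1) = g 1 := by
  let A := MvPolynomial (Fin 2) k
  let : Algebra A K := (MvPolynomial.aeval ![d.V 0, d.V 1]).toRingHom.toAlgebra
  have hmap : ∀ p : A, algebraMap A K p = MvPolynomial.aeval ![d.V 0, d.V 1] p := fun _ => rfl
  have : IsScalarTower k A K := IsScalarTower.of_algebraMap_eq fun x => by
    rw [hmap, MvPolynomial.algebraMap_eq, MvPolynomial.aeval_C]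
  have : FaithfulSMul A K := (faithfulSMul_iff_algebraMap_injective _ _).2 d.ind
  let : Algebra (FractionRing A) K := FractionRing.liftAlgebra A K
  have : IsScalarTower A (FractionRing A) K := FractionRing.isScalarTower_liftAlgebra A K
  have : IsScalarTower k (FractionRing A) K := IsScalarTower.of_algebraMap_eq fun x => by
    rw [IsScalarTower.algebraMap_apply k A (FractionRing A),
      ← IsScalarTower.algebraMap_apply A (FractionRing A) K,
      ← IsScalarTower.algebraMap_apply k A K]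
  let R := (algebraMap (FractionRing A) K).fieldRange
  have hA : ∀ p : A, algebraMap A K p ∈ R := fun p =>
    ⟨algebraMap A (FractionRing A) p, by
      rw [← IsScalarTower.algebraMap_apply A (FractionRing A) K]⟩
  have hk : ∀ c : k, algebraMap k K c ∈ R := fun c => by
    rw [IsScalarTower.algebraMap_apply k A K]
    exact hA _
  have h0 : d.V 0 ∈ R := by
    have := hA (MvPolynomial.X 0)
    rw [hmap, MvPolynomial.aeval_X] at this
    exact this
  have h1 : d.V 1 ∈ R := by
    have := hA (MvPolynomial.X 1)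
    rw [hmap, MvPolynomial.aeval_X] at this
    exact this
  have v3 : d.V 3 ^ 5 ∈ R := by
    have h3 : d.V 3 ^ 5 + d.V 0 ^ 5 * d.V 1 ^ 5 = 1 := d.rel 3
    rw [eq_sub_of_add_eq h3]
    exact sub_mem (one_mem _) (mul_mem (pow_mem h0 5) (pow_mem h1 5))
  have v2 : d.V 2 ^ 5 ∈ R := by
    have h3 : d.V 0 ^ 5 + d.V 2 ^ 5 * d.V 3 ^ 5 = 1 := d.rel 0
    have : d.V 2 ^ 5 = (1 - d.V 0 ^ 5) / d.V 3 ^ 5 := by
      rw [eq_div_iff (pow_ne_zero _ (V_ne d 3)), ← h3]
      ring
    rw [this]
    exact div_mem (sub_mem (one_mem _) (pow_mem h0 5)) v3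
  have v4 : d.V 4 ^ 5 ∈ R := by
    have h3 : d.V 1 ^ 5 + d.V 3 ^ 5 * d.V 4 ^ 5 = 1 := d.rel 1
    have : d.V 4 ^ 5 = (1 - d.V 1 ^ 5) / d.V 3 ^ 5 := by
      rw [eq_div_iff (pow_ne_zero _ (V_ne d 3)), ← h3]
      ring
    rw [this]
    exact div_mem (sub_mem (one_mem _) (pow_mem h1 5)) v3
  have hv : ∀ i, d.V i ^ 5 ∈ R := by
    intro i
    fin_cases i
    · exact pow_mem h0 5
    · exact pow_mem h1 5
    · exact v2
    · exact v3
    · exact v4
  have hy : d.y ^ 5 ∈ R := by
    rw [d.yrel]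
    exact sum_mem fun i _ => mul_mem (hk _) (hv i)
  have hF5 : (5 : FractionRing A) ≠ 0 := by
    intro h
    apply h5
    have := congrArg (algebraMap (FractionRing A) K) h
    rw [map_ofNat, map_zero, ← map_ofNat (algebraMap k K), map_eq_zero] at this
    exact this
  have hsep : Algebra.IsSeparable (FractionRing A) K := by
    refine isSep_of_gen (k := k) hF5 d.gen ?_
    rintro x (rfl | ⟨i, rfl⟩)
    · exact hy
    · exact hv i
  have : Algebra.FormallyEtale A (FractionRing A) :=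
    Algebra.FormallyEtale.of_isLocalization (nonZeroDivisors A)
  have : Algebra.FormallyEtale (FractionRing A) K := Algebra.FormallyEtale.of_isSeparable _ _
  have : Algebra.FormallyEtale A K := Algebra.FormallyEtale.comp A (FractionRing A) K
  obtain ⟨D, hD⟩ := exists_der_ext (MvPolynomial.mkDerivation k g : Derivation k A K)
  refine ⟨D, ?_, ?_⟩
  · have := hD (MvPolynomial.X 0)
    rw [hmap, MvPolynomial.aeval_X, MvPolynomial.mkDerivation_X] at this
    exact this
  · have := hD (MvPolynomial.X 1)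
    rw [hmap, MvPolynomial.aeval_X, MvPolynomial.mkDerivation_X] at this
    exact this

end BR

theorem PD.exists_isBr [CharP k 2]
    (d : PD k K) : ∃ B, IsBr d B := by
  have h5 : (5 : k) ≠ 0 := by
    have h2 : (2 : k) = 0 := by exact_mod_cast CharP.cast_eq_zero k 2
    intro h
    exact one_ne_zero (α := k) (by linear_combination h - 2 * h2)
  obtain ⟨D₀, h00, -⟩ := BR.exists_partial d h5 ![1, 0]
  obtain ⟨D₁, h10, h11⟩ := BR.exists_partial d h5 ![0, 1]
  simp only [Matrix.cons_val_zero, Matrix.cons_val_one, Matrix.cons_val_fin_one] at h00 h10 h11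
  let c : K := d.V 3 ^ 9 * d.V 2 ^ 4 * d.V 4 ^ 4
  let T : Derivation k K K → K →ₗ[K] Derivation k K K := fun D => LinearMap.toSpanSingleton K _ D
  refine ⟨c • ((T D₁).compDer D₀ - (T D₀).compDer D₁), ⟨fun f => ?_, ?_⟩⟩
  · simp [T, mul_comm]
  · simp [T, h00, h10, h11, c]

end Pool.Agent.helper97.BG
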