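import Pool.Agent.helper52.BG.BR

/-!
# PB : the `2`-basis `V 0, V 1` of `K` (module for MP_c563ae_ag, plan and statements by helper97)
-/

namespace Pool.Agent.helper97.BG

open Module

namespace PB

variable {k K : Type*} [Field k] [Field K] [Algebra k K]

/-- The value of a vector of coordinates. -/
def val (d : PD k K) (z : Fin 4 → K) : K :=
  z 0 ^ 2 + z 1 ^ 2 * d.V 0 + z 2 ^ 2 * d.V 1 + z 3 ^ 2 * (d.V 0 * d.V 1)

/-- The elements of the form `z 0 ^ 2 + z 1 ^ 2 V 0 + z 2 ^ 2 V 1 + z 3 ^ 2 V 0 V 1`. -/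
def Sq (d : PD k K) : Set K := {f | ∃ z, f = val d z}

theorem sq_mul_mem {d : PD k K} {f : K} (hf : f ∈ Sq d) (a : K) : a ^ 2 * f ∈ Sq d := by
  obtain ⟨z, rfl⟩ := hf
  refine ⟨fun i => a * z i, ?_⟩
  simp only [val]
  ring

theorem sq_mem (d : PD k K) (a : K) : a ^ 2 ∈ Sq d := by
  refine ⟨![a, 0, 0, 0], ?_⟩
  simp [val]

theorem mem_of_sq_mul {d : PD k K} {f a : K} (ha : a ≠ 0) (h : a ^ 2 * f ∈ Sq d) : f ∈ Sq d := by
  have := sq_mul_mem h a⁻¹
  rwa [← mul_assoc, ← mul_pow, inv_mul_cancel₀ ha, one_pow, one_mul] at this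

theorem add_mem (h2 : (2 : K) = 0) {d : PD k K} {f g : K} (hf : f ∈ Sq d) (hg : g ∈ Sq d) :
    f + g ∈ Sq d := by
  obtain ⟨z, rfl⟩ := hf
  obtain ⟨w, rfl⟩ := hg
  refine ⟨fun i => z i + w i, ?_⟩
  simp only [val]
  linear_combination -(z 0 * w 0 + z 1 * w 1 * d.V 0 + z 2 * w 2 * d.V 1 +
    z 3 * w 3 * (d.V 0 * d.V 1)) * h2

theorem mul_mem (h2 : (2 : K) = 0) {d : PD k K} {f g : K} (hf : f ∈ Sq d) (hg : g ∈ Sq d) :
    f * g ∈ Sq d := by
  obtain ⟨z, rfl⟩ := hf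
  obtain ⟨w, rfl⟩ := hg
  have hs : ∀ a b : K, (a + b) ^ 2 = a ^ 2 + b ^ 2 := fun a b => by
    linear_combination a * b * h2
  refine ⟨![z 0 * w 0 + z 1 * w 1 * d.V 0 + z 2 * w 2 * d.V 1 + z 3 * w 3 * (d.V 0 * d.V 1),
    z 0 * w 1 + z 1 * w 0 + (z 2 * w 3 + z 3 * w 2) * d.V 1,
    z 0 * w 2 + z 2 * w 0 + (z 1 * w 3 + z 3 * w 1) * d.V 0,
    z 0 * w 3 + z 3 * w 0 + z 1 * w 2 + z 2 * w 1], ?_⟩
  simp only [val, Matrix.cons_val, hs, mul_pow]
  ring

theorem inv_mem {d : PD k K} {f : K} (hf : f ∈ Sq d) : f⁻¹ ∈ Sq d := by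
  by_cases h0 : f = 0
  · rw [h0, inv_zero]
    have := sq_mem d 0
    simpa using this
  · have := sq_mul_mem hf f⁻¹
    rwa [sq, mul_assoc, inv_mul_cancel₀ h0, mul_one] at this

theorem mem_of_pow5 {d : PD k K} {x : K} (h : x ^ 5 ∈ Sq d) : x ∈ Sq d := by
  by_cases h0 : x = 0
  · rw [h0]
    have := sq_mem d 0
    simpa using this
  · refine mem_of_sq_mul (pow_ne_zero 2 h0) ?_
    rwa [← pow_mul, ← pow_succ]

theorem V0_mem (d : PD k K) : d.V 0 ∈ Sq d := ⟨![0, 1, 0, 0], by simp [val]⟩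

theorem V1_mem (d : PD k K) : d.V 1 ∈ Sq d := ⟨![0, 0, 1, 0], by simp [val]⟩

theorem one_mem (d : PD k K) : (1 : K) ∈ Sq d := by simpa using sq_mem d 1

theorem pow_mem (h2 : (2 : K) = 0) {d : PD k K} {f : K} (hf : f ∈ Sq d) (n : ℕ) :
    f ^ n ∈ Sq d := by
  induction n with
  | zero => rw [pow_zero]; exact one_mem d
  | succ n ih => rw [pow_succ]; exact mul_mem h2 ih hf

theorem alg_mem [IsAlgClosed k] (d : PD k K) (c : k) : algebraMap k K c ∈ Sq d := by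
  obtain ⟨z, hz⟩ := IsAlgClosed.exists_pow_nat_eq c (n := 2) (by norm_num)
  rw [← hz, map_pow]
  exact sq_mem d _

theorem V_mem (h2 : (2 : K) = 0) (d : PD k K) (i : Fin 5) : d.V i ∈ Sq d := by
  have v0 := pow_mem h2 (V0_mem d) 5
  have v1 := pow_mem h2 (V1_mem d) 5
  have v3 : d.V 3 ^ 5 ∈ Sq d := by
    have h3 : d.V 3 ^ 5 + d.V 0 ^ 5 * d.V 1 ^ 5 = 1 := d.rel 3
    have : d.V 3 ^ 5 = 1 + d.V 0 ^ 5 * d.V 1 ^ 5 := by
      linear_combination h3 - d.V 0 ^ 5 * d.V 1 ^ 5 * h2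
    rw [this]
    exact add_mem h2 (one_mem d) (mul_mem h2 v0 v1)
  fin_cases i
  · exact V0_mem d
  · exact V1_mem d
  · refine mem_of_pow5 ?_
    have h3 : d.V 0 ^ 5 + d.V 2 ^ 5 * d.V 3 ^ 5 = 1 := d.rel 0
    have h3ne := pow_ne_zero 5 (BR.V_ne d 3)
    have : d.V 2 ^ 5 = (1 + d.V 0 ^ 5) * (d.V 3 ^ 5)⁻¹ := by
      rw [eq_mul_inv_iff_mul_eq₀ h3ne]
      linear_combination h3 - d.V 0 ^ 5 * h2
    change d.V 2 ^ 5 ∈ Sq d
    rw [this]
    exact mul_mem h2 (add_mem h2 (one_mem d) v0) (inv_mem v3)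
  · exact mem_of_pow5 v3
  · refine mem_of_pow5 ?_
    have h3 : d.V 1 ^ 5 + d.V 3 ^ 5 * d.V 4 ^ 5 = 1 := d.rel 1
    have h3ne := pow_ne_zero 5 (BR.V_ne d 3)
    have : d.V 4 ^ 5 = (1 + d.V 1 ^ 5) * (d.V 3 ^ 5)⁻¹ := by
      rw [eq_mul_inv_iff_mul_eq₀ h3ne]
      linear_combination h3 - d.V 1 ^ 5 * h2
    change d.V 4 ^ 5 ∈ Sq d
    rw [this]
    exact mul_mem h2 (add_mem h2 (one_mem d) v1) (inv_mem v3)

theorem sum_mem (h2 : (2 : K) = 0) {d : PD k K} {ι : Type*} (s : Finset ι) (f : ι → K)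
    (h : ∀ i ∈ s, f i ∈ Sq d) : ∑ i ∈ s, f i ∈ Sq d := by
  classical
  induction s using Finset.induction_on with
  | empty =>
    rw [Finset.sum_empty]
    have := sq_mem d 0
    simpa using this
  | insert a s ha ih =>
    rw [Finset.sum_insert ha]
    exact add_mem h2 (h a (Finset.mem_insert_self a s))
      (ih fun i hi => h i (Finset.mem_insert_of_mem hi))

theorem mem_Sq [IsAlgClosed k] (h2 : (2 : K) = 0) (d : PD k K) (f : K) : f ∈ Sq d := by
  have hy : d.y ∈ Sq d := by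
    refine mem_of_pow5 ?_
    rw [d.yrel]
    exact sum_mem h2 _ _ fun i _ => mul_mem h2 (alg_mem d _) (pow_mem h2 (V_mem h2 d i) 5)
  have hx : f ∈ IntermediateField.adjoin k (insert d.y (Set.range d.V)) := by
    rw [d.gen]; trivial
  induction hx using IntermediateField.adjoin_induction with
  | mem x hx =>
    rcases hx with rfl | ⟨i, rfl⟩
    · exact hy
    · exact V_mem h2 d i
  | algebraMap x => exact alg_mem d x
  | add x y _ _ hx hy => exact add_mem h2 hx hy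
  | inv x _ hx => exact inv_mem hx
  | mul x y _ _ hx hy => exact mul_mem h2 hx hy

/-- Derivations of a value. -/
theorem der_sq (h2 : (2 : K) = 0) (D : Derivation k K K) (x : K) : D (x ^ 2) = 0 := by
  rw [Derivation.leibniz_pow]
  simp only [smul_eq_mul, nsmul_eq_mul]
  push_cast
  rw [h2, zero_mul]

theorem der_val (h2 : (2 : K) = 0) (d : PD k K) (D : Derivation k K K) (z : Fin 4 → K) :
    D (val d z) = (z 1 ^ 2 + z 3 ^ 2 * d.V 1) * D (d.V 0) +
      (z 2 ^ 2 + z 3 ^ 2 * d.V 0) * D (d.V 1) := by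
  simp only [val, map_add, Derivation.leibniz, der_sq h2, smul_eq_mul]
  ring

theorem beta_ne (d : PD k K) : d.V 3 ^ 9 * d.V 2 ^ 4 * d.V 4 ^ 4 ≠ 0 :=
  mul_ne_zero (mul_ne_zero (pow_ne_zero _ (BR.V_ne d 3)) (pow_ne_zero _ (BR.V_ne d 2)))
    (pow_ne_zero _ (BR.V_ne d 4))

end PB

variable {k K : Type*} [Field k] [Field K] [Algebra k K]

theorem PD.pbasis [IsAlgClosed k] [CharP k 2] (d : PD k K) (f : K) :
    ∃ z : Fin 4 → K,
      f = z 0 ^ 2 + z 1 ^ 2 * d.V 0 + z 2 ^ 2 * d.V 1 + z 3 ^ 2 * (d.V 0 * d.V 1) :=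
  PB.mem_Sq (BR.two_eq k) d f

theorem PD.pbasis_unique [CharP k 2] (d : PD k K) (z : Fin 4 → K)
    (h : z 0 ^ 2 + z 1 ^ 2 * d.V 0 + z 2 ^ 2 * d.V 1 + z 3 ^ 2 * (d.V 0 * d.V 1) = 0) :
    z = 0 := by
  have h2 : (2 : K) = 0 := BR.two_eq k
  obtain ⟨B, hB⟩ := d.exists_isBr
  have hz : PB.val d z = 0 := h
  have e0 := PB.der_val h2 d (B (d.V 0)) z
  have e1 := PB.der_val h2 d (B (d.V 1)) z
  rw [hz, map_zero, hB.alt, mul_zero, zero_add, hB.norm] at e0
  rw [hz, map_zero, hB.alt, mul_zero, add_zero, BR.symm2 h2 hB.alt, hB.norm] at e1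
  have e0' := (mul_eq_zero.1 e0.symm).resolve_right (PB.beta_ne d)
  have e1' := (mul_eq_zero.1 e1.symm).resolve_right (PB.beta_ne d)
  have f0 := congrArg (B (d.V 1)) e0'
  rw [map_add, PB.der_sq h2, Derivation.leibniz, PB.der_sq h2, map_zero,
    BR.symm2 h2 hB.alt, hB.norm] at f0
  simp only [smul_eq_mul, mul_zero, add_zero, zero_add] at f0
  have z3 : z 3 = 0 := by
    have := (mul_eq_zero.1 f0).resolve_right (PB.beta_ne d)
    rwa [pow_eq_zero_iff (by norm_num)] at this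
  have z2 : z 2 = 0 := by
    rw [z3] at e0'
    simpa using e0'
  have z1 : z 1 = 0 := by
    rw [z3] at e1'
    simpa using e1'
  have z0 : z 0 = 0 := by
    rw [z1, z2, z3] at h
    simpa using h
  funext i
  fin_cases i
  · exact z0
  · exact z1
  · exact z2
  · exact z3

/-- `1, V 0, V 1, V 0 V 1` in `Fr K`. -/
noncomputable def PB.b (d : PD k K) : Fin 4 → Fr K :=
  ![Fr.mk 1, Fr.mk (d.V 0), Fr.mk (d.V 1), Fr.mk (d.V 0 * d.V 1)]

theorem PB.sum_b [CharP K 2] (d : PD k K) (z : Fin 4 → K) :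
    ∑ i, z i • PB.b d i = Fr.mk (PB.val d z) := by
  have h : ∀ a v : K, a • Fr.mk v = Fr.mk (a ^ 2 * v) := fun a v => Fr.smul_mk a v
  simp only [Fin.sum_univ_four, PB.b, Matrix.cons_val, PB.val, map_add]
  rw [h, h, h, h, mul_one]

theorem PB.linInd [CharP k 2] [CharP K 2] (d : PD k K) : LinearIndependent K (PB.b d) := by
  rw [Fintype.linearIndependent_iff]
  intro z hz i
  rw [PB.sum_b] at hz
  have : PB.val d z = 0 := Fr.mk.injective (by rw [hz, map_zero])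
  rw [d.pbasis_unique z this]
  rfl

theorem PB.span_b [IsAlgClosed k] [CharP k 2] [CharP K 2] (d : PD k K) :
    ⊤ ≤ Submodule.span K (Set.range (PB.b d)) := by
  intro v _
  obtain ⟨z, hz⟩ := d.pbasis (Fr.mk.symm v)
  have : v = ∑ i, z i • PB.b d i := by
    rw [PB.sum_b]
    exact (Fr.mk.symm_apply_eq).1 hz
  rw [this]
  exact Submodule.sum_mem _ fun i _ =>
    Submodule.smul_mem _ _ (Submodule.subset_span (Set.mem_range_self i))

theorem PB.b_mem [CharP K 2] (d : PD k K) (i : Fin 4) : PB.b d i ∈ d.M 1 := by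
  have key : ∀ n : Fin 5 → ℕ, Lev 2 n → Fr.mk (d.mon n) ∈ d.M 1 := by
    intro n hn
    rw [PD.mk_mem_M]
    refine Submodule.subset_span ⟨n, 0, by norm_num, hn, by simp⟩
  fin_cases i
  · have := key 0 (by intro l; simp)
    simpa [PB.b, PD.mon] using this
  · have := key ![1, 0, 0, 0, 0] (by unfold Lev; decide)
    simpa [PB.b, PD.mon, Fin.prod_univ_five] using this
  · have := key ![0, 1, 0, 0, 0] (by unfold Lev; decide)
    simpa [PB.b, PD.mon, Fin.prod_univ_five] using this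
  · have := key ![1, 1, 0, 0, 0] (by unfold Lev; decide)
    simpa [PB.b, PD.mon, Fin.prod_univ_five] using this

theorem PB.finrank_Fr [IsAlgClosed k] [CharP k 2] [CharP K 2] (d : PD k K) :
    finrank K (Fr K) = 4 := by
  rw [Module.finrank_eq_card_basis (Basis.mk (PB.linInd d) (PB.span_b d)), Fintype.card_fin]

theorem PD.rank_M [IsAlgClosed k] [CharP k 2] [CharP K 2] (d : PD k K) :
    rank K d.M = 4 := by
  have h : Submodule.span K (⋃ m, (d.M m : Set (Fr K))) = ⊤ := by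
    rw [eq_top_iff]
    refine (PB.span_b d).trans (Submodule.span_mono ?_)
    rintro _ ⟨i, rfl⟩
    exact Set.mem_iUnion.2 ⟨1, PB.b_mem d i⟩
  rw [rank, h, finrank_top, PB.finrank_Fr d]

/-! ### KER : the kernels (uses PB) -/

theorem IsBr.kernel [IsAlgClosed k] [CharP k 2] {d : PD k K}
    {B : Derivation k K (Derivation k K K)} (hB : IsBr d B) {f : K}
    (h0 : B (d.V 0) f = 0) (h1 : B (d.V 1) f = 0) : ∃ z, f = z ^ 2 := by
  have h2 : (2 : K) = 0 := BR.two_eq k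
  obtain ⟨z, hz⟩ := d.pbasis f
  have hz' : f = PB.val d z := hz
  have e0 := PB.der_val h2 d (B (d.V 0)) z
  have e1 := PB.der_val h2 d (B (d.V 1)) z
  rw [← hz', h0, hB.alt, mul_zero, zero_add, hB.norm] at e0
  rw [← hz', h1, hB.alt, mul_zero, add_zero, BR.symm2 h2 hB.alt, hB.norm] at e1
  have e0' := (mul_eq_zero.1 e0.symm).resolve_right (PB.beta_ne d)
  have e1' := (mul_eq_zero.1 e1.symm).resolve_right (PB.beta_ne d)
  have f0 := d.pbasis_unique ![z 2, z 3, 0, 0] (by simpa using e0')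
  have z2 : z 2 = 0 := congrFun f0 0
  have z3 : z 3 = 0 := congrFun f0 1
  have z1 : z 1 = 0 := by
    rw [z3] at e1'
    simpa using e1'
  refine ⟨z 0, ?_⟩
  rw [hz, z1, z2, z3]
  ring

/-- If `a` is not a square, then `K ^ 2 + K ^ 2 a` is a field. -/
theorem PB.div_mem (h2 : (2 : K) = 0) {a z₀ z₁ w₀ w₁ b : K} (h : z₀ ^ 2 + z₁ ^ 2 * a ≠ 0)
    (hb : (z₀ ^ 2 + z₁ ^ 2 * a) * b = w₀ ^ 2 + w₁ ^ 2 * a) :
    ∃ u₀ u₁, b = u₀ ^ 2 + u₁ ^ 2 * a := by
  set c := z₀ ^ 2 + z₁ ^ 2 * a with hc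
  refine ⟨(z₀ * w₀ + z₁ * w₁ * a) / c, (z₀ * w₁ + z₁ * w₀) / c, ?_⟩
  have : b = c * (w₀ ^ 2 + w₁ ^ 2 * a) / c ^ 2 := by
    rw [← hb]
    field_simp
  rw [this, div_pow, div_pow, div_mul_eq_mul_div, ← add_div]
  congr 1
  rw [hc]
  linear_combination -(z₀ * w₀ * z₁ * w₁ * a + z₀ * w₁ * z₁ * w₀ * a) * h2

theorem IsBr.kernel2 [IsAlgClosed k] [CharP k 2] {d : PD k K}
    {B : Derivation k K (Derivation k K K)} (hB : IsBr d B) {a b : K}
    (hab : B a b = 0) (ha : ¬ ∃ z, a = z ^ 2) : ∃ z₀ z₁, b = z₀ ^ 2 + z₁ ^ 2 * a := by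
  have h2 : (2 : K) = 0 := BR.two_eq k
  have : CharP K 2 := charP_of_injective_algebraMap (algebraMap k K).injective 2
  by_contra hcon
  -- `1, a, b, ab` are independent
  have hsq : ∀ u v : K, (u + v) ^ 2 = u ^ 2 + v ^ 2 := fun u v => by
    linear_combination u * v * h2
  have hind1 : ∀ u v : K, u ^ 2 + v ^ 2 * a = 0 → u = 0 ∧ v = 0 := by
    intro u v huv
    have hv : v = 0 := by
      by_contra hv
      apply ha
      refine ⟨u / v, ?_⟩
      rw [div_pow, eq_div_iff (pow_ne_zero 2 hv)]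
      linear_combination huv - u ^ 2 * h2
    rw [hv] at huv
    exact ⟨by simpa using huv, hv⟩
  let e : Fin 4 → Fr K := ![Fr.mk 1, Fr.mk a, Fr.mk b, Fr.mk (a * b)]
  have hsum : ∀ z : Fin 4 → K, ∑ i, z i • e i =
      Fr.mk (z 0 ^ 2 + z 1 ^ 2 * a + z 2 ^ 2 * b + z 3 ^ 2 * (a * b)) := by
    intro z
    have h : ∀ a v : K, a • Fr.mk v = Fr.mk (a ^ 2 * v) := fun a v => Fr.smul_mk a v
    simp only [Fin.sum_univ_four, e, Matrix.cons_val, map_add]
    rw [h, h, h, h, mul_one]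
  have hind : LinearIndependent K e := by
    rw [Fintype.linearIndependent_iff]
    intro z hz
    rw [hsum] at hz
    have hz' : z 0 ^ 2 + z 1 ^ 2 * a + z 2 ^ 2 * b + z 3 ^ 2 * (a * b) = 0 :=
      Fr.mk.injective (by rw [hz, map_zero])
    by_cases hc : z 2 ^ 2 + z 3 ^ 2 * a = 0
    · obtain ⟨h₂, h₃⟩ := hind1 _ _ hc
      rw [h₂, h₃] at hz'
      obtain ⟨h₀, h₁⟩ := hind1 (z 0) (z 1) (by simpa using hz')
      intro i
      fin_cases i
      · exact h₀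
      · exact h₁
      · exact h₂
      · exact h₃
    · exfalso
      apply hcon
      refine PB.div_mem h2 (w₀ := z 0) (w₁ := z 1) hc ?_
      linear_combination hz' - (z 0 ^ 2 + z 1 ^ 2 * a) * h2
  have hspan : Submodule.span K (Set.range e) = ⊤ := by
    have hf := PB.finrank_Fr d
    have : FiniteDimensional K (Fr K) := Module.finite_of_finrank_pos (by rw [hf]; norm_num)
    exact hind.span_eq_top_of_card_eq_finrank' (by rw [hf, Fintype.card_fin])
  have hker : ∀ f : K, B a f = 0 := by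
    intro f
    have hf : Fr.mk f ∈ Submodule.span K (Set.range e) := by rw [hspan]; trivial
    rw [Submodule.mem_span_range_iff_exists_fun] at hf
    obtain ⟨z, hz⟩ := hf
    rw [hsum] at hz
    rw [← Fr.mk.injective hz]
    simp only [map_add, Derivation.leibniz, PB.der_sq h2, hab, hB.alt, smul_eq_mul, mul_zero,
      add_zero]
  apply ha
  refine hB.kernel ?_ ?_
  · rw [BR.symm2 h2 hB.alt]
    exact hker _
  · rw [BR.symm2 h2 hB.alt]
    exact hker _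

end Pool.Agent.helper97.BG
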